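import Pool.Agent.K3h5.IB.Stm

/-!
# Iterated biased random walks: facts on the cut times (brick CUTG of helper5, by helper87)
-/

set_option autoImplicit false

open Pool.Agent.K3h5.IB

namespace Pool.Agent.K3h87.IB

variable {d : ℕ}

theorem path0_sh (x : ℕ → S d) (c k : ℕ) :
    path0 (sh c x) k = path0 x (c + k) - path0 x c := by
  unfold path0 sh
  rw [Finset.sum_range_add]
  simp [add_comm]

theorem path0_add (x : ℕ → S d) (c k : ℕ) :
    path0 x (c + k) = path0 (sh c x) k + path0 x c := by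
  rw [path0_sh]; abel

theorem vec_opp (e : D d) : vec (opp e) = - vec e := by
  unfold vec opp
  rcases e with ⟨j, b⟩
  cases b
  · simp only [Bool.not_false, if_true]
    rw [← Pi.single_neg]
    simp
  · simp only [Bool.not_true, if_true]
    rw [← Pi.single_neg]
    simp

theorem trace_symm (y : ℕ → V d) {v : V d} {e : D d} (h : (v, e) ∈ trace y) :
    (v + vec e, opp e) ∈ trace y := by
  obtain ⟨n, h1 | h1⟩ := h
  · refine ⟨n, Or.inr ⟨h1.2, ?_⟩⟩
    simp only [vec_opp, h1.1]
    abel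
  · refine ⟨n, Or.inl ⟨h1.2, ?_⟩⟩
    simp only [vec_opp, h1.1]
    abel

theorem ht_sub (δ : Fin d → ℝ) (v w : V d) : ht δ (v - w) = ht δ v - ht δ w := by
  unfold ht
  rw [← Finset.sum_sub_distrib]
  refine Finset.sum_congr rfl fun j _ => ?_
  simp only [Pi.sub_apply]
  push_cast
  ring

theorem ht_zero (δ : Fin d → ℝ) : ht δ (0 : V d) = 0 := by
  unfold ht
  simp

variable {δ : Fin d → ℝ} {x : ℕ → S d}

theorem cut_ge {c n : ℕ} (hc : Cut δ x c) (h : c ≤ n) :
    ht δ (path0 x c) ≤ ht δ (path0 x n) := by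
  rcases h.lt_or_eq with h | rfl
  · exact (hc.2 n h).le
  · exact le_rfl

theorem cut_lt {c n : ℕ} (hc : Cut δ x c) (h : ht δ (path0 x c) < ht δ (path0 x n)) :
    c < n := by
  by_contra hn
  exact absurd (hc.1 n (not_lt.mp hn)) (not_le.mpr h)

theorem cut_le {c n : ℕ} (hc : Cut δ x c) (h : ht δ (path0 x n) ≤ ht δ (path0 x c)) :
    n ≤ c := by
  by_contra hn
  exact absurd (hc.2 n (not_le.mp hn)) (not_lt.mpr h)

theorem cut_sh {c : ℕ} (hc : Cut δ x c) (k : ℕ) : Cut δ (sh c x) k ↔ Cut δ x (c + k) := by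
  have e : ∀ j, ht δ (path0 (sh c x) j) = ht δ (path0 x (c + j)) - ht δ (path0 x c) := by
    intro j
    rw [path0_sh, ht_sub]
  constructor
  · intro h
    refine ⟨fun j hj => ?_, fun j hj => ?_⟩
    · rcases le_or_gt j c with h1 | h1
      · exact (hc.1 j h1).trans (cut_ge hc (Nat.le_add_right c k))
      · obtain ⟨i, rfl⟩ := Nat.exists_eq_add_of_le h1.le
        have := h.1 i (by omega)
        rw [e, e] at this
        linarith
    · obtain ⟨i, rfl⟩ := Nat.exists_eq_add_of_le (show c ≤ j by omega)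
      have := h.2 i (by omega)
      rw [e, e] at this
      linarith
  · intro h
    refine ⟨fun j hj => ?_, fun j hj => ?_⟩
    · rw [e, e]
      have := h.1 (c + j) (by omega)
      linarith
    · rw [e, e]
      have := h.2 (c + j) (by omega)
      linarith

theorem good_sh (hg : Good δ x) {c : ℕ} (hc : Cut δ x c) : Good δ (sh c x) where
  trans := by
    intro M
    obtain ⟨N, hN⟩ := hg.trans (M + ht δ (path0 x c))
    refine ⟨N, fun n hn => ?_⟩
    rw [path0_sh, ht_sub]
    have := hN (c + n) (by omega)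
    linarith
  cuts := by
    intro N
    obtain ⟨c', h1, h2⟩ := hg.cuts (c + N)
    obtain ⟨k, rfl⟩ := Nat.exists_eq_add_of_le (show c ≤ c' by omega)
    exact ⟨k, by omega, (cut_sh hc k).2 h2⟩
  mem := fun k i m E hE => hg.mem (k + c) i m E hE
  fair := fun k i E e he M => hg.fair (k + c) i E e he M

theorem idx_sh {c : ℕ} (hc : Cut δ x c) {v : V d} (hv : ht δ (path0 x c) < ht δ v)
    (hn : ∃ n, path0 x n = v) : idx x v = c + idx (sh c x) (v - path0 x c) := by
  have h1 : path0 x (idx x v) = v := Nat.sInf_mem (s := {n | path0 x n = v}) hn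
  have h2 : c < idx x v := cut_lt hc (by rw [h1]; exact hv)
  obtain ⟨k, hk⟩ := Nat.exists_eq_add_of_le h2.le
  have h3 : path0 (sh c x) k = v - path0 x c := by
    rw [path0_sh, ← hk, h1]
  have h4 : idx (sh c x) (v - path0 x c) ≤ k := Nat.sInf_le h3
  have h5 : path0 (sh c x) (idx (sh c x) (v - path0 x c)) = v - path0 x c :=
    Nat.sInf_mem (s := {n | path0 (sh c x) n = v - path0 x c}) ⟨k, h3⟩
  have h6 : path0 x (c + idx (sh c x) (v - path0 x c)) = v := by
    rw [path0_add, h5]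
    abel
  have h7 : idx x v ≤ c + idx (sh c x) (v - path0 x c) := Nat.sInf_le h6
  omega

theorem trace_sh {c : ℕ} (hc : Cut δ x c) {v : V d} (e : D d)
    (hv : ht δ (path0 x c) < ht δ v) :
    (v, e) ∈ trace (path0 x) ↔ (v - path0 x c, e) ∈ trace (path0 (sh c x)) := by
  have a1 : ∀ (k : ℕ) (w : V d), path0 (sh c x) k = w - path0 x c ↔ path0 x (c + k) = w := by
    intro k w
    rw [path0_sh, sub_left_inj]
  have a2 : v - path0 x c + vec e = (v + vec e) - path0 x c := by abel
  constructor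
  · rintro ⟨n, h | h⟩
    · have h1 : c < n := cut_lt hc (by rw [h.1]; exact hv)
      obtain ⟨k, rfl⟩ := Nat.exists_eq_add_of_le h1.le
      refine ⟨k, Or.inl ⟨(a1 k v).2 h.1, ?_⟩⟩
      simp only [a2]
      exact (a1 (k + 1) _).2 h.2
    · have h1 : c < n + 1 := cut_lt hc (by rw [h.1]; exact hv)
      obtain ⟨k, rfl⟩ := Nat.exists_eq_add_of_le (Nat.lt_succ_iff.mp h1)
      refine ⟨k, Or.inr ⟨(a1 (k + 1) v).2 h.1, ?_⟩⟩
      simp only [a2]
      exact (a1 k _).2 h.2
  · rintro ⟨k, h | h⟩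
    · simp only [a2] at h
      exact ⟨c + k, Or.inl ⟨(a1 k v).1 h.1, (a1 (k + 1) _).1 h.2⟩⟩
    · simp only [a2] at h
      exact ⟨c + k, Or.inr ⟨(a1 (k + 1) v).1 h.1, (a1 k _).1 h.2⟩⟩

theorem cross {c : ℕ} (hc : Cut δ x c) {v : V d} {e : D d} (h : (v, e) ∈ trace (path0 x))
    (h1 : ht δ v ≤ ht δ (path0 x c)) (h2 : ht δ (path0 x c) < ht δ (v + vec e)) :
    v = path0 x c ∧ v + vec e = path0 x (c + 1) := by
  obtain ⟨n, h | h⟩ := h
  · simp only at h
    have h3 : n ≤ c := cut_le hc (by rw [h.1]; exact h1)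
    have h4 : c < n + 1 := cut_lt hc (by rw [h.2]; exact h2)
    have h5 : n = c := by omega
    subst h5
    exact ⟨h.1.symm, h.2.symm⟩
  · simp only at h
    have h3 : n + 1 ≤ c := cut_le hc (by rw [h.1]; exact h1)
    have h4 : c < n := cut_lt hc (by rw [h.2]; exact h2)
    omega

theorem left_fin {c : ℕ} (hc : Cut δ x c) {v : V d} {e : D d} (h : (v, e) ∈ trace (path0 x))
    (h1 : ht δ v ≤ ht δ (path0 x c)) : ∃ k ≤ c, path0 x k = v := by
  obtain ⟨n, h | h⟩ := h
  · exact ⟨n, cut_le hc (by rw [h.1]; exact h1), h.1⟩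
  · exact ⟨n + 1, cut_le hc (by rw [h.1]; exact h1), h.1⟩

theorem cuts_infinite (hg : Good δ x) : ({c | Cut δ x c}).Infinite := by
  refine Set.infinite_of_forall_exists_gt fun N => ?_
  obtain ⟨c, h1, h2⟩ := hg.cuts (N + 1)
  exact ⟨c, h2, by omega⟩

theorem ct_strictMono (hg : Good δ x) : StrictMono (ct δ x) :=
  Nat.nth_strictMono (cuts_infinite hg)

theorem ct_cut (hg : Good δ x) (m : ℕ) : Cut δ x (ct δ x m) :=
  Nat.nth_mem_of_infinite (cuts_infinite hg) m

theorem ct_surj (hg : Good δ x) {c : ℕ} (hc : Cut δ x c) : ∃ m, ct δ x m = c := by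
  have h := Nat.range_nth_of_infinite (cuts_infinite hg)
  have h1 : c ∈ Set.range (Nat.nth (Cut δ x)) := by rw [h]; exact hc
  exact h1

theorem ct_sh (hg : Good δ x) (j K : ℕ) :
    ct δ (sh (ct δ x j) x) K + ct δ x j = ct δ x (j + K) := by
  have hc := ct_cut hg j
  have hg' := good_sh hg hc
  have hf : StrictMono fun K => ct δ (sh (ct δ x j) x) K + ct δ x j := by
    intro a b hab
    have := ct_strictMono hg' hab
    simp only
    omega
  have hg2 : StrictMono fun K => ct δ x (j + K) := by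
    intro a b hab
    exact ct_strictMono hg (by omega)
  have hr : Set.range (fun K => ct δ (sh (ct δ x j) x) K + ct δ x j) =
      Set.range fun K => ct δ x (j + K) := by
    ext n
    constructor
    · rintro ⟨k, rfl⟩
      have h1 : Cut δ x (ct δ x j + ct δ (sh (ct δ x j) x) k) :=
        (cut_sh hc _).1 (ct_cut hg' k)
      obtain ⟨m, hm⟩ := ct_surj hg h1
      have h2 : j ≤ m := by
        rw [← (ct_strictMono hg).le_iff_le, hm]
        omega
      obtain ⟨i, rfl⟩ := Nat.exists_eq_add_of_le h2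
      exact ⟨i, by simp only; rw [hm, add_comm]⟩
    · rintro ⟨k, rfl⟩
      have h1 : ct δ x j ≤ ct δ x (j + k) := (ct_strictMono hg).monotone (by omega)
      obtain ⟨i, hi⟩ := Nat.exists_eq_add_of_le h1
      have h2 : Cut δ (sh (ct δ x j) x) i := (cut_sh hc i).2 (by rw [← hi]; exact ct_cut hg _)
      obtain ⟨m, hm⟩ := ct_surj hg' h2
      exact ⟨m, by simp only; rw [hm, hi, add_comm]⟩
  exact congrFun ((hf.range_inj hg2).1 hr) K

theorem t_CUTG : S_CUTG := by
  intro d δ x hg
  refine ⟨fun c k => path0_sh x c k, fun v e h => trace_symm _ h, fun c hc => ⟨fun v e h h1 h2 =>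
    cross hc h h1 h2, fun v e h h1 => left_fin hc h h1, fun k => cut_sh hc k, good_sh hg hc,
    fun v hv hn => idx_sh hc hv hn, fun v e hv => trace_sh hc e hv⟩, ct_strictMono hg,
    fun m => ct_cut hg m, fun c hc => ct_surj hg hc, fun j K => ct_sh hg j K⟩

end Pool.Agent.K3h87.IB
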